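import Pool.Agent.Monster.Two
import Pool.Agent.Monster.VermaMod

/-!
# Monster potentials of momentum zero and degree two

There is no monster potential of momentum `β = 0` and degree `n = 2`, but the degree `2` part of the
irreducible highest weight module of the Virasoro algebra with `c = -2` and
`h = (β² - 1) / 8 = -1/8` is not zero.
-/

open Pool.Agent.Monster

namespace Pool.Agent.Results.MP_151aca_mp.MomentumZero

theorem result : monsters 0 2 = ∅ ∧ 0 < irrDim (-2) ((0 ^ 2 - 1) / 8) 2 :=
  ⟨monsters_empty, irrDim_two_pos (b := 1 / 2) (μ := 1 / 2) (by norm_num) (by norm_num)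
    (by norm_num)⟩

end Pool.Agent.Results.MP_151aca_mp.MomentumZero
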